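import Pool.Agent.R995.SF9

set_option autoImplicit false

/-! # The sextic Freud string equation has exactly one positive solution

For all real `κ, τ` and `t = -κ τ^2` the equation (E) has exactly one positive solution; it is the
sequence of recurrence coefficients of the monic orthogonal polynomials of the weight
`exp (-x^6 + τ x^4 + t x^2)`. -/

open Pool.Agent.R995.SF in
theorem Pool.Agent.Results.MP_d042fc_an.UniquePositiveSolution.result (κ τ : ℝ) :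
    ∃ β : ℕ → ℝ,
      -- `β` is a positive solution of (E), with `t = -κ τ^2`
      PosSol τ (-κ * τ ^ 2) β ∧
      -- every positive solution is equal to `β`
      (∀ b : ℕ → ℝ, PosSol τ (-κ * τ ^ 2) b → b = β) ∧
      -- `β` is the sequence of recurrence coefficients of the orthogonal polynomials
      (∀ n m : ℕ, n ≠ m → ∫ x : ℝ, (P β n).eval x * (P β m).eval x *
        Real.exp (-x ^ 6 + τ * x ^ 4 + (-κ * τ ^ 2) * x ^ 2) = 0) ∧
      β 1 = (∫ x : ℝ, x ^ 2 * Real.exp (-x ^ 6 + τ * x ^ 4 + (-κ * τ ^ 2) * x ^ 2)) /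
        ∫ x : ℝ, Real.exp (-x ^ 6 + τ * x ^ 4 + (-κ * τ ^ 2) * x ^ 2) ∧
      β 2 = (∫ x : ℝ, x ^ 4 * Real.exp (-x ^ 6 + τ * x ^ 4 + (-κ * τ ^ 2) * x ^ 2)) /
          (∫ x : ℝ, x ^ 2 * Real.exp (-x ^ 6 + τ * x ^ 4 + (-κ * τ ^ 2) * x ^ 2)) -
        (∫ x : ℝ, x ^ 2 * Real.exp (-x ^ 6 + τ * x ^ 4 + (-κ * τ ^ 2) * x ^ 2)) /
          ∫ x : ℝ, Real.exp (-x ^ 6 + τ * x ^ 4 + (-κ * τ ^ 2) * x ^ 2) := by
  have h0 : wm τ (-κ * τ ^ 2) 0 =
      ∫ x : ℝ, Real.exp (-x ^ 6 + τ * x ^ 4 + (-κ * τ ^ 2) * x ^ 2) := by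
    unfold wm wt
    simp
  refine ⟨beta τ (-κ * τ ^ 2), beta_posSol _ _, fun b hb => hb.unique (beta_posSol _ _), ?_, ?_, ?_⟩
  · intro n m hnm
    have h1 := (beta_posSol τ (-κ * τ ^ 2)).orthogonal n m
    rw [if_neg hnm] at h1
    rw [← h1]
    change _ = ∫ x : ℝ, (P (beta τ (-κ * τ ^ 2)) n * P (beta τ (-κ * τ ^ 2)) m).eval x *
      wt τ (-κ * τ ^ 2) x
    simp only [Polynomial.eval_mul]
    rfl
  · rw [beta_one, h0]
    rfl
  · rw [beta_two, h0]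
    rfl
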